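import Pool.Agent.N912.PY.Stm

/-!
# Project PY (helper912), part PY8: the Turan-Kubilius inequality in `ℤ[√(-c)]` (helper619)
-/

set_option autoImplicit false

namespace Pool.Agent.N619.PY

open Finset Pool.Agent.N912.PY

/-- the number of `z` in an interval of length `L` divisible by `m` in a class modulo `m` -/
theorem card_class (a L v m : ℤ) (hm : 0 < m) (hL : 0 ≤ L) (hmL : m ∣ L) :
    (((Ico a (a + L)).filter (fun z => z ≡ v [ZMOD m])).card : ℝ) = L / m := by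
  obtain ⟨k, rfl⟩ := hmL
  have hk : 0 ≤ k := by
    by_contra h
    push Not at h
    nlinarith
  have h1 := Int.Ico_filter_modEq_card a (a + m * k) hm v
  have h2 : ⌈(((a + m * k : ℤ) : ℚ) - v) / (m : ℚ)⌉ = ⌈((a : ℚ) - v) / (m : ℚ)⌉ + k := by
    rw [← Int.ceil_add_intCast]
    congr 1
    have : (m : ℚ) ≠ 0 := by exact_mod_cast hm.ne'
    push_cast
    field_simp
    ring
  have h3 : (((Ico a (a + m * k)).filter (fun z => z ≡ v [ZMOD m])).card : ℤ) = k := by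
    rw [h1, h2]
    have : ⌈((a : ℚ) - v) / (m : ℚ)⌉ + k - ⌈((a : ℚ) - v) / (m : ℚ)⌉ = k := by ring
    rw [this]
    exact max_eq_left hk
  have h4 : (((Ico a (a + m * k)).filter (fun z => z ≡ v [ZMOD m])).card : ℝ) = (k : ℝ) := by
    exact_mod_cast h3
  rw [h4]
  have : (m : ℝ) ≠ 0 := by exact_mod_cast hm.ne'
  push_cast
  field_simp

/-- two classes modulo coprime moduli -/
theorem card_class2 (a L v v' m m' : ℤ) (hm : 0 < m) (hm' : 0 < m') (hL : 0 ≤ L)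
    (hc : IsCoprime m m') (hmL : m * m' ∣ L) :
    (((Ico a (a + L)).filter (fun z => z ≡ v [ZMOD m] ∧ z ≡ v' [ZMOD m'])).card : ℝ) =
      L / (m * m') := by
  obtain ⟨s, t, hst⟩ := hc
  -- s * m + t * m' = 1
  set V : ℤ := v * (t * m') + v' * (s * m) with hV
  have hV1 : V ≡ v [ZMOD m] := by
    apply Int.ModEq.symm
    rw [Int.modEq_iff_dvd]
    refine ⟨(v' - v) * s, ?_⟩
    have : t * m' = 1 - s * m := by linarith
    rw [hV, this]
    ring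
  have hV2 : V ≡ v' [ZMOD m'] := by
    apply Int.ModEq.symm
    rw [Int.modEq_iff_dvd]
    refine ⟨(v - v') * t, ?_⟩
    have : s * m = 1 - t * m' := by linarith
    rw [hV, this]
    ring
  have hcop : m.natAbs.Coprime m'.natAbs := by
    rw [← Int.isCoprime_iff_nat_coprime]
    exact ⟨s, t, hst⟩
  have h1 : (Ico a (a + L)).filter (fun z => z ≡ v [ZMOD m] ∧ z ≡ v' [ZMOD m']) =
      (Ico a (a + L)).filter (fun z => z ≡ V [ZMOD (m * m')]) := by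
    apply filter_congr
    intro z _
    rw [← Int.modEq_and_modEq_iff_modEq_mul hcop]
    constructor
    · rintro ⟨h, h'⟩
      exact ⟨h.trans hV1.symm, h'.trans hV2.symm⟩
    · rintro ⟨h, h'⟩
      exact ⟨h.trans hV1, h'.trans hV2⟩
  rw [h1, card_class a L V (m * m') (by positivity) hL hmL]
  push_cast
  rfl

/-- divisibility in `ℤ[√(-c)]` by an element of prime norm `p > 2c` is a congruence for the second
coordinate, once the first is given -/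
theorem dvd_iff (c : ℕ) (hc : 1 ≤ c) (π : ℤ × ℤ) (hp : (nn c π).Prime) (hl : 2 * c < nn c π)
    (z₁ : ℤ) : ∃ v : ℤ, ∀ z₂ : ℤ, (∃ w : ℤ × ℤ, ((z₁, z₂) : ℤ × ℤ) = pm c π w) ↔
      z₂ ≡ v [ZMOD (nn c π : ℤ)] := by
  obtain ⟨p₁, p₂⟩ := π
  set p : ℤ := (nn c (p₁, p₂) : ℤ) with hpdef
  have hpval : p = p₁ ^ 2 + c * p₂ ^ 2 := by
    rw [hpdef]
    unfold nn
    simp only
    rw [Int.natCast_natAbs]
    exact abs_of_nonneg (by positivity)
  have hpp : Prime p := Nat.prime_iff_prime_int.mp hp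
  have hpos : 0 < p := by
    rw [hpdef]; exact_mod_cast hp.pos
  have hndc : ¬ p ∣ (c : ℤ) := by
    intro h
    have h1 := Int.le_of_dvd (by exact_mod_cast hc) h
    have h2 : (2 * c : ℤ) < p := by
      rw [hpdef]; exact_mod_cast hl
    have : (1 : ℤ) ≤ c := by exact_mod_cast hc
    linarith
  have hnd1 : ¬ p ∣ p₁ := by
    intro h
    have h1 : p ∣ c * p₂ ^ 2 := by
      have : (c : ℤ) * p₂ ^ 2 = p - p₁ ^ 2 := by linarith
      rw [this]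
      exact dvd_sub (dvd_refl p) (dvd_pow h (by norm_num))
    have h2 : p ∣ p₂ := by
      rcases hpp.dvd_or_dvd h1 with h3 | h3
      · exact absurd h3 hndc
      · exact hpp.dvd_of_dvd_pow h3
    obtain ⟨s, hs⟩ := h
    obtain ⟨t, ht⟩ := h2
    have h4 : p * 1 = p * (p * (s ^ 2 + c * t ^ 2)) := by
      rw [mul_one]
      calc p = p₁ ^ 2 + c * p₂ ^ 2 := hpval
        _ = (p * s) ^ 2 + c * (p * t) ^ 2 := by rw [← hs, ← ht]
        _ = _ := by ring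
    have h5 : 1 = p * (s ^ 2 + c * t ^ 2) := mul_left_cancel₀ hpos.ne' h4
    exact hpp.not_isUnit (IsUnit.of_mul_eq_one _ h5.symm)
  have hcop : IsCoprime p₁ p := by
    rw [isCoprime_comm]
    exact (Prime.coprime_iff_not_dvd hpp).mpr hnd1
  obtain ⟨u, u', hu⟩ := hcop
  -- u * p₁ + u' * p = 1
  refine ⟨u * p₂ * z₁, fun z₂ => ?_⟩
  have hkey : z₂ ≡ u * p₂ * z₁ [ZMOD p] ↔ p ∣ p₁ * z₂ - p₂ * z₁ := by
    have e1 : u * p₁ = 1 - u' * p := by linarith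
    constructor
    · intro h
      obtain ⟨k, hk⟩ := (Int.modEq_iff_dvd.mp h.symm)
      -- z₂ - u p₂ z₁ = p k
      refine ⟨p₁ * k - u' * p₂ * z₁, ?_⟩
      have : z₂ = u * p₂ * z₁ + p * k := by linarith
      rw [this]
      calc p₁ * (u * p₂ * z₁ + p * k) - p₂ * z₁ = (u * p₁) * p₂ * z₁ + p₁ * p * k - p₂ * z₁ := by ring
        _ = (1 - u' * p) * p₂ * z₁ + p₁ * p * k - p₂ * z₁ := by rw [e1]
        _ = _ := by ring
    · rintro ⟨k, hk⟩
      apply Int.ModEq.symm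
      rw [Int.modEq_iff_dvd]
      refine ⟨u * k + u' * z₂, ?_⟩
      calc z₂ - u * p₂ * z₁ = (u * p₁ + u' * p) * z₂ - u * p₂ * z₁ := by rw [hu]; ring
        _ = u * (p₁ * z₂ - p₂ * z₁) + u' * p * z₂ := by ring
        _ = u * (p * k) + u' * p * z₂ := by rw [hk]
        _ = _ := by ring
  rw [hkey]
  constructor
  · rintro ⟨⟨w₁, w₂⟩, hw⟩
    simp only [pm, Prod.mk.injEq] at hw
    obtain ⟨h1, h2⟩ := hw
    refine ⟨w₂, ?_⟩
    rw [h1, h2, hpval]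
    ring
  · rintro ⟨w₂, hw₂⟩
    have h1 : p ∣ p₁ * (p₁ * z₁ + c * p₂ * z₂) := by
      refine ⟨z₁ + c * p₂ * w₂, ?_⟩
      calc p₁ * (p₁ * z₁ + c * p₂ * z₂) = (p₁ ^ 2 + c * p₂ ^ 2) * z₁ + c * p₂ * (p₁ * z₂ - p₂ * z₁) := by
            ring
        _ = p * z₁ + c * p₂ * (p * w₂) := by rw [← hpval, hw₂]
        _ = _ := by ring
    have h2 : p ∣ p₁ * z₁ + c * p₂ * z₂ := by
      rcases hpp.dvd_or_dvd h1 with h3 | h3
      · exact absurd h3 hnd1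
      · exact h3
    obtain ⟨w₁, hw₁⟩ := h2
    refine ⟨(w₁, w₂), ?_⟩
    simp only [pm, Prod.mk.injEq]
    constructor
    · apply mul_left_cancel₀ hpos.ne'
      calc p * z₁ = p₁ * (p₁ * z₁ + c * p₂ * z₂) - c * p₂ * (p₁ * z₂ - p₂ * z₁) := by
            rw [hpval]; ring
        _ = p₁ * (p * w₁) - c * p₂ * (p * w₂) := by rw [hw₁, hw₂]
        _ = _ := by ring
    · apply mul_left_cancel₀ hpos.ne'
      calc p * z₂ = p₁ * (p₁ * z₂ - p₂ * z₁) + p₂ * (p₁ * z₁ + c * p₂ * z₂) := by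
            rw [hpval]; ring
        _ = p₁ * (p * w₂) + p₂ * (p * w₁) := by rw [hw₁, hw₂]
        _ = _ := by ring

/-- the inequality on one vertical interval whose length is a common multiple of the norms -/
theorem column (c : ℕ) (hc : 1 ≤ c) (𝔓 : Finset (ℤ × ℤ)) (h𝔓 : PSet c (2 * c) 𝔓) (z₁ a L : ℤ)
    (hL : 0 ≤ L) (hdvd : ((∏ π ∈ 𝔓, nn c π : ℕ) : ℤ) ∣ L) :
    ∑ z₂ ∈ Ico a (a + L), ((om c 𝔓 (z₁, z₂) : ℝ) - mass c 𝔓) ^ 2 ≤ L * mass c 𝔓 := by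
  classical
  have hex : ∀ π : ℤ × ℤ, ∃ v : ℤ, π ∈ 𝔓 → ∀ z₂ : ℤ,
      (∃ w : ℤ × ℤ, ((z₁, z₂) : ℤ × ℤ) = pm c π w) ↔ z₂ ≡ v [ZMOD (nn c π : ℤ)] := by
    intro π
    by_cases h : π ∈ 𝔓
    · obtain ⟨v, hv⟩ := dvd_iff c hc π (h𝔓.prime π h) (h𝔓.large π h) z₁
      exact ⟨v, fun _ => hv⟩
    · exact ⟨0, fun h' => absurd h' h⟩
  choose v hv using hex
  set I : Finset ℤ := Ico a (a + L) with hI
  set M : ℝ := mass c 𝔓 with hM
  -- the number of the divisors as a sum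
  have hom : ∀ z₂ : ℤ, (om c 𝔓 (z₁, z₂) : ℝ) =
      ∑ π ∈ 𝔓, (if z₂ ≡ v π [ZMOD (nn c π : ℤ)] then (1 : ℝ) else 0) := by
    intro z₂
    unfold om
    rw [card_filter]
    push_cast
    apply sum_congr rfl
    intro π hπ
    have := hv π hπ z₂
    by_cases h : z₂ ≡ v π [ZMOD (nn c π : ℤ)]
    · rw [if_pos h, if_pos (this.mpr h)]
    · rw [if_neg h, if_neg (fun h' => h (this.mp h'))]
  have hpos : ∀ π ∈ 𝔓, (0 : ℤ) < (nn c π : ℤ) := by
    intro π hπ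
    exact_mod_cast (h𝔓.prime π hπ).pos
  have hdiv : ∀ π ∈ 𝔓, ((nn c π : ℕ) : ℤ) ∣ L := by
    intro π hπ
    refine dvd_trans ?_ hdvd
    exact_mod_cast dvd_prod_of_mem (fun π => nn c π) hπ
  have hone : ∀ π ∈ 𝔓, ∑ z₂ ∈ I, (if z₂ ≡ v π [ZMOD (nn c π : ℤ)] then (1 : ℝ) else 0) =
      L * (1 / (nn c π : ℝ)) := by
    intro π hπ
    rw [sum_boole, card_class a L (v π) (nn c π) (hpos π hπ) hL (hdiv π hπ)]
    push_cast
    ring
  have htwo : ∀ π ∈ 𝔓, ∀ π' ∈ 𝔓, ∑ z₂ ∈ I, (if z₂ ≡ v π [ZMOD (nn c π : ℤ)] then (1 : ℝ) else 0) *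
      (if z₂ ≡ v π' [ZMOD (nn c π' : ℤ)] then (1 : ℝ) else 0) ≤
      L * (1 / (nn c π : ℝ)) * (1 / (nn c π' : ℝ)) + (if π = π' then L * (1 / (nn c π : ℝ)) else 0) := by
    intro π hπ π' hπ'
    have hLr : (0 : ℝ) ≤ L := by exact_mod_cast hL
    by_cases hne : π = π'
    · subst hne
      rw [if_pos rfl]
      have : ∑ z₂ ∈ I, (if z₂ ≡ v π [ZMOD (nn c π : ℤ)] then (1 : ℝ) else 0) *
          (if z₂ ≡ v π [ZMOD (nn c π : ℤ)] then (1 : ℝ) else 0) = L * (1 / (nn c π : ℝ)) := by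
        rw [← hone π hπ]
        apply sum_congr rfl
        intro z _
        split_ifs <;> simp
      rw [this]
      have : (0 : ℝ) ≤ L * (1 / (nn c π : ℝ)) * (1 / (nn c π : ℝ)) := by positivity
      linarith
    · rw [if_neg hne, add_zero]
      have hcop : IsCoprime ((nn c π : ℕ) : ℤ) ((nn c π' : ℕ) : ℤ) := by
        rw [Nat.isCoprime_iff_coprime]
        rw [Nat.coprime_primes (h𝔓.prime π hπ) (h𝔓.prime π' hπ')]
        intro h
        exact hne (h𝔓.inj π hπ π' hπ' h)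
      have hd2 : ((nn c π : ℕ) : ℤ) * ((nn c π' : ℕ) : ℤ) ∣ L := by
        exact hcop.mul_dvd (hdiv π hπ) (hdiv π' hπ')
      have h1 : ∀ z₂ : ℤ, (if z₂ ≡ v π [ZMOD (nn c π : ℤ)] then (1 : ℝ) else 0) *
          (if z₂ ≡ v π' [ZMOD (nn c π' : ℤ)] then (1 : ℝ) else 0) =
          if (z₂ ≡ v π [ZMOD (nn c π : ℤ)] ∧ z₂ ≡ v π' [ZMOD (nn c π' : ℤ)]) then (1 : ℝ) else 0 := by
        intro z₂
        by_cases ha : z₂ ≡ v π [ZMOD (nn c π : ℤ)] <;> by_cases hb : z₂ ≡ v π' [ZMOD (nn c π' : ℤ)] <;>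
          simp [ha, hb]
      rw [sum_congr rfl (fun z _ => h1 z), sum_boole,
        card_class2 a L (v π) (v π') (nn c π) (nn c π') (hpos π hπ) (hpos π' hπ') hL hcop hd2]
      apply le_of_eq
      have e1 : ((nn c π : ℕ) : ℝ) ≠ 0 := by exact_mod_cast (h𝔓.prime π hπ).ne_zero
      have e2 : ((nn c π' : ℕ) : ℝ) ≠ 0 := by exact_mod_cast (h𝔓.prime π' hπ').ne_zero
      push_cast
      field_simp
  -- the first moment
  have hS1 : ∑ z₂ ∈ I, (om c 𝔓 (z₁, z₂) : ℝ) = L * M := by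
    rw [sum_congr rfl (fun z _ => hom z), sum_comm, sum_congr rfl hone, ← mul_sum]
    rfl
  -- the second moment
  have hS2 : ∑ z₂ ∈ I, (om c 𝔓 (z₁, z₂) : ℝ) ^ 2 ≤ L * M ^ 2 + L * M := by
    have e1 : ∀ z₂ : ℤ, (om c 𝔓 (z₁, z₂) : ℝ) ^ 2 = ∑ π ∈ 𝔓, ∑ π' ∈ 𝔓,
        (if z₂ ≡ v π [ZMOD (nn c π : ℤ)] then (1 : ℝ) else 0) *
          (if z₂ ≡ v π' [ZMOD (nn c π' : ℤ)] then (1 : ℝ) else 0) := by
      intro z₂
      rw [hom, sq, sum_mul_sum]
    rw [sum_congr rfl (fun z _ => e1 z), sum_comm]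
    have e2 : ∀ π ∈ 𝔓, ∑ z₂ ∈ I, ∑ π' ∈ 𝔓,
        (if z₂ ≡ v π [ZMOD (nn c π : ℤ)] then (1 : ℝ) else 0) *
          (if z₂ ≡ v π' [ZMOD (nn c π' : ℤ)] then (1 : ℝ) else 0) ≤
        L * (1 / (nn c π : ℝ)) * M + L * (1 / (nn c π : ℝ)) := by
      intro π hπ
      rw [sum_comm]
      refine (sum_le_sum (fun π' hπ' => htwo π hπ π' hπ')).trans ?_
      rw [sum_add_distrib, ← mul_sum, sum_ite_eq, if_pos hπ]
      exact le_of_eq rfl
    refine (sum_le_sum e2).trans ?_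
    rw [sum_add_distrib, ← sum_mul, ← mul_sum]
    have : ∑ π ∈ 𝔓, 1 / (nn c π : ℝ) = M := rfl
    rw [this]
    apply le_of_eq
    ring
  have hcard : ∑ _z₂ ∈ I, (1 : ℝ) = L := by
    rw [sum_const, nsmul_eq_mul, mul_one, hI, Int.card_Ico]
    have : a + L - a = L := by ring
    rw [this]
    have h2 : ((L.toNat : ℤ)) = L := Int.toNat_of_nonneg hL
    exact_mod_cast h2
  have hexp : ∑ z₂ ∈ I, ((om c 𝔓 (z₁, z₂) : ℝ) - M) ^ 2 =
      ∑ z₂ ∈ I, (om c 𝔓 (z₁, z₂) : ℝ) ^ 2 - 2 * M * ∑ z₂ ∈ I, (om c 𝔓 (z₁, z₂) : ℝ) +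
        M ^ 2 * ∑ _z₂ ∈ I, (1 : ℝ) := by
    rw [mul_sum, mul_sum, ← sum_sub_distrib, ← sum_add_distrib]
    apply sum_congr rfl
    intro z _
    ring
  rw [hexp, hS1, hcard]
  nlinarith

/-- PY8 -/
theorem tkg : S_TKG := by
  intro c hc
  refine ⟨12, by norm_num, fun 𝔓 h𝔓 hM Λ hΛ => ?_⟩
  set D : ℕ := ∏ π ∈ 𝔓, nn c π with hD
  have hDpos : 0 < D := by
    apply prod_pos
    intro π hπ
    exact (h𝔓.prime π hπ).pos
  refine ⟨D + 1, fun x hx => ?_⟩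
  set N : ℕ := Λ * x with hN
  have hNx : x ≤ N := by
    calc x = 1 * x := (one_mul x).symm
      _ ≤ Λ * x := Nat.mul_le_mul_right x hΛ
  have hND : D + 1 ≤ N := hx.trans hNx
  -- the length of the longer interval
  set K : ℕ := (2 * N + 1) / D + 1 with hK
  set L : ℕ := K * D with hLdef
  have hL1 : 2 * N + 1 ≤ L := by
    have := Nat.lt_div_mul_add (a := 2 * N + 1) hDpos
    rw [hLdef, hK, add_mul, one_mul]
    exact this.le
  have hL2 : L ≤ 2 * N + 1 + D := by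
    rw [hLdef, hK, add_mul, one_mul]
    have := Nat.div_mul_le_self (2 * N + 1) D
    omega
  have hcol : ∀ z₁ : ℤ, ∑ z₂ ∈ Icc (-(N : ℤ)) (N : ℤ), ((om c 𝔓 (z₁, z₂) : ℝ) - mass c 𝔓) ^ 2 ≤
      (4 * N : ℝ) * mass c 𝔓 := by
    intro z₁
    have h1 := column c hc 𝔓 h𝔓 z₁ (-(N : ℤ)) (L : ℤ) (by positivity) (by
      rw [hLdef]
      push_cast
      exact ⟨(K : ℤ), by rw [mul_comm]; congr 1; rw [hD]; push_cast; rfl⟩)
    have h2 : Icc (-(N : ℤ)) (N : ℤ) ⊆ Ico (-(N : ℤ)) (-(N : ℤ) + (L : ℤ)) := by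
      intro z hz
      rw [mem_Icc] at hz
      rw [mem_Ico]
      refine ⟨hz.1, ?_⟩
      have : (2 * (N : ℤ) + 1) ≤ (L : ℤ) := by exact_mod_cast hL1
      linarith [hz.2]
    refine (sum_le_sum_of_subset_of_nonneg h2 (fun z _ _ => sq_nonneg _)).trans (h1.trans ?_)
    apply mul_le_mul_of_nonneg_right _ (by linarith)
    have h3 : (L : ℝ) ≤ 2 * N + 1 + D := by exact_mod_cast hL2
    have h4 : (D : ℝ) + 1 ≤ N := by exact_mod_cast hND
    have h5 : (0 : ℝ) ≤ N := by positivity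
    push_cast
    linarith
  have hbx : bx Λ x = Icc (-(N : ℤ)) (N : ℤ) ×ˢ Icc (-(N : ℤ)) (N : ℤ) := rfl
  rw [hbx, sum_product]
  refine (sum_le_sum (fun z₁ _ => hcol z₁)).trans ?_
  rw [sum_const, nsmul_eq_mul, Int.card_Icc]
  have h6 : (((N : ℤ) + 1 - (-(N : ℤ))).toNat : ℝ) = 2 * N + 1 := by
    have : ((N : ℤ) + 1 - (-(N : ℤ))) = ((2 * N + 1 : ℕ) : ℤ) := by push_cast; ring
    rw [this, Int.toNat_natCast]
    push_cast
    rfl
  rw [h6]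
  have h7 : (1 : ℝ) ≤ N := by
    have : 1 ≤ N := by omega
    exact_mod_cast this
  have h8 : ((Λ : ℝ) * (x : ℝ)) = (N : ℝ) := by rw [hN]; push_cast; rfl
  rw [h8]
  have h9 : (2 * (N : ℝ) + 1) * (4 * N * mass c 𝔓) ≤ (3 * N) * (4 * N * mass c 𝔓) := by
    apply mul_le_mul_of_nonneg_right _ (by positivity)
    linarith
  refine h9.trans (le_of_eq ?_)
  ring

end Pool.Agent.N619.PY
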